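import Mathlib

/-!
# Disconnected graphs whose connected set polynomial and node reliability have only real roots

For every `d ≥ 2` there is a disconnected graph `G`, a disjoint union of complete graphs, with
connected set polynomial `C(G; x) = x (x + d + 1) ^ (d - 1)` of degree `d` and with node
reliability `(1 - p) ^ (n - d) p (d + 1 - d p) ^ (d - 1)`, where `n` is the order of `G`.

The number of components `K_j` is `N_j = g_(j-1) - g_j` with `g_j = C(d-1, j) d ^ (d-1-j)`; these
numbers are nonnegative, and `∑ N_j (y ^ j - 1) = (y - 1) ∑ g_j y ^ j = (y - 1) (y + d) ^ (d - 1)`.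
-/

set_option autoImplicit false

namespace Pool.Agent.Results.MP_51a8c5_co.RealRootedAllDegrees

open Polynomial Finset

open Classical in
/-- The connected set polynomial `C(G; x)`: the sum of `x ^ |S|` over all nonempty vertex sets `S`
for which the induced subgraph `G[S]` is connected. -/
noncomputable def connectedSetPolynomial {V : Type} [Fintype V] (G : SimpleGraph V) : ℝ[X] :=
  ∑ S ∈ univ.filter (fun S : Finset V => S.Nonempty ∧ (G.induce (S : Set V)).Connected), X ^ S.card

open Classical in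
/-- The node reliability `NRel(G; p)`: the sum of `p ^ |S| (1 - p) ^ (n - |S|)` over all nonempty
vertex sets `S` for which `G[S]` is connected, `n` the order of `G`. -/
noncomputable def nodeReliability {V : Type} [Fintype V] (G : SimpleGraph V) : ℝ[X] :=
  ∑ S ∈ univ.filter (fun S : Finset V => S.Nonempty ∧ (G.induce (S : Set V)).Connected),
    X ^ S.card * (1 - X) ^ (Fintype.card V - S.card)

/-- Every complex root of the real polynomial `p` is real. -/
def AllRootsReal (p : ℝ[X]) : Prop := ∀ z : ℂ, aeval z p = 0 → z.im = 0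

/-- The disjoint union of complete graphs of orders `s i`. -/
def cliques {ι : Type} (s : ι → ℕ) : SimpleGraph (Σ i, Fin (s i)) where
  Adj a b := a ≠ b ∧ a.1 = b.1
  symm := ⟨fun _ _ h => ⟨h.1.symm, h.2.symm⟩⟩
  loopless := ⟨fun _ h => h.1 rfl⟩

theorem fst_eq_of_reachable {ι : Type} (s : ι → ℕ) (S : Set (Σ i, Fin (s i)))
    (a b : S) (h : ((cliques s).induce S).Reachable a b) : a.1.1 = b.1.1 := by
  obtain ⟨w⟩ := h
  induction w with
  | nil => rfl
  | cons h _ ih => exact h.2.trans ih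

theorem conn_iff {ι : Type} [Fintype ι] (s : ι → ℕ) (S : Finset (Σ i, Fin (s i))) :
    (S.Nonempty ∧ ((cliques s).induce (S : Set _)).Connected) ↔
      ∃ (i : ι) (T : Finset (Fin (s i))), T.Nonempty ∧
        T.map ⟨Sigma.mk i, sigma_mk_injective⟩ = S := by
  classical
  constructor
  · rintro ⟨⟨a, ha⟩, hc⟩
    refine ⟨a.1, univ.filter fun x => (⟨a.1, x⟩ : Σ i, Fin (s i)) ∈ S, ⟨a.2, by simpa using ha⟩, ?_⟩
    ext b
    simp only [mem_map, mem_filter, mem_univ, true_and, Function.Embedding.coeFn_mk]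
    constructor
    · rintro ⟨x, hx, rfl⟩
      exact hx
    · intro hb
      have := fst_eq_of_reachable s (S : Set _) ⟨a, ha⟩ ⟨b, hb⟩ (hc.preconnected _ _)
      obtain ⟨j, y⟩ := b
      obtain rfl : a.1 = j := this
      exact ⟨y, hb, rfl⟩
  · rintro ⟨i, T, ⟨x, hx⟩, rfl⟩
    have hmem : (⟨i, x⟩ : Σ i, Fin (s i)) ∈ T.map ⟨Sigma.mk i, sigma_mk_injective⟩ := by
      simp only [mem_map, Function.Embedding.coeFn_mk]
      exact ⟨x, hx, rfl⟩
    refine ⟨⟨_, hmem⟩, ?_⟩
    have : Nonempty (((T.map ⟨Sigma.mk i, sigma_mk_injective⟩ : Finset (Σ i, Fin (s i))) :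
      Set (Σ i, Fin (s i)))) := ⟨⟨_, hmem⟩⟩
    refine SimpleGraph.Connected.mk ?_
    rintro ⟨u, hu⟩ ⟨v, hv⟩
    by_cases huv : u = v
    · subst huv
      exact SimpleGraph.Reachable.refl _
    · refine SimpleGraph.Adj.reachable ⟨huv, ?_⟩
      rw [mem_coe, mem_map] at hu hv
      obtain ⟨p, _, rfl⟩ := hu
      obtain ⟨q, _, rfl⟩ := hv
      rfl

open Classical in
theorem sum_conn {ι : Type} [Fintype ι] (s : ι → ℕ) {R : Type} [CommRing R] (φ : ℕ → R) :
    (∑ S ∈ univ.filter (fun S : Finset (Σ i, Fin (s i)) =>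
      S.Nonempty ∧ ((cliques s).induce (S : Set _)).Connected),
      φ S.card) = ∑ i, ((∑ T : Finset (Fin (s i)), φ T.card) - φ 0) := by
  have h1 : ∀ i, (∑ T : Finset (Fin (s i)), φ T.card) - φ 0 =
      ∑ T ∈ (univ : Finset (Finset (Fin (s i)))) with T.Nonempty, φ T.card := by
    intro i
    have h2 : (univ.filter fun T : Finset (Fin (s i)) => T.Nonempty) = univ.erase ∅ := by
      ext T
      simp [nonempty_iff_ne_empty]
    rw [h2, ← Finset.add_sum_erase univ _ (mem_univ ∅), card_empty]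
    ring
  rw [Finset.sum_congr rfl fun i _ => h1 i, Finset.sum_sigma']
  symm
  refine Finset.sum_bij (fun p _ => p.2.map ⟨Sigma.mk p.1, sigma_mk_injective⟩) ?_ ?_ ?_ ?_
  · rintro ⟨i, T⟩ h
    simp only [mem_sigma, mem_univ, mem_filter, true_and] at h
    rw [mem_filter]
    exact ⟨mem_univ _, (conn_iff s _).2 ⟨i, T, h, rfl⟩⟩
  · rintro ⟨i, T⟩ h ⟨j, U⟩ h' heq
    simp only [mem_sigma, mem_univ, mem_filter, true_and] at h h'
    obtain ⟨x, hx⟩ := h
    have hx2 : (⟨i, x⟩ : Σ i, Fin (s i)) ∈ U.map ⟨Sigma.mk j, sigma_mk_injective⟩ := by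
      rw [← heq]
      simp only [mem_map, Function.Embedding.coeFn_mk]
      exact ⟨x, hx, rfl⟩
    simp only [mem_map, Function.Embedding.coeFn_mk] at hx2
    obtain ⟨y, _, hy⟩ := hx2
    obtain rfl : j = i := congrArg Sigma.fst hy
    congr 1
    exact Finset.map_injective _ heq
  · intro S hS
    rw [mem_filter] at hS
    obtain ⟨i, T, hT, h⟩ := (conn_iff s S).1 hS.2
    exact ⟨⟨i, T⟩, by simpa using hT, h⟩
  · rintro ⟨i, T⟩ _
    simp

theorem connPoly_eq {ι : Type} [Fintype ι] (s : ι → ℕ) :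
    connectedSetPolynomial (cliques s) = ∑ i, ((1 + X : ℝ[X]) ^ s i - 1) := by
  classical
  have h0 := sum_conn s (fun k => (X : ℝ[X]) ^ k)
  have h1 : connectedSetPolynomial (cliques s) =
      ∑ i, ((∑ T : Finset (Fin (s i)), (X : ℝ[X]) ^ T.card) - X ^ 0) := by
    unfold connectedSetPolynomial
    convert h0 using 2
    ext S
    simp only [mem_filter]
  rw [h1]
  refine Finset.sum_congr rfl fun i _ => ?_
  have := Fintype.sum_pow_mul_eq_add_pow (Fin (s i)) (X : ℝ[X]) 1
  simp only [one_pow, mul_one, Fintype.card_fin] at this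
  rw [this, pow_zero, add_comm]

theorem card_eq {ι : Type} [Fintype ι] (s : ι → ℕ) : Fintype.card (Σ i, Fin (s i)) = ∑ i, s i := by
  simp

theorem nodeRel_eq {ι : Type} [Fintype ι] (s : ι → ℕ) :
    nodeReliability (cliques s) =
      ∑ i, ((1 - X : ℝ[X]) ^ (∑ i, s i - s i) - (1 - X) ^ (∑ i, s i)) := by
  classical
  have h0 := sum_conn s (fun k => (X : ℝ[X]) ^ k * (1 - X) ^ (∑ i, s i - k))
  have h0' : nodeReliability (cliques s) =
      ∑ i, ((∑ T : Finset (Fin (s i)), (X : ℝ[X]) ^ T.card * (1 - X) ^ (∑ i, s i - T.card)) -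
        X ^ 0 * (1 - X) ^ (∑ i, s i - 0)) := by
    unfold nodeReliability
    rw [card_eq]
    convert h0 using 2
    ext S
    simp only [mem_filter]
  rw [h0']
  refine Finset.sum_congr rfl fun i _ => ?_
  have hle : s i ≤ ∑ i, s i := Finset.single_le_sum (f := s) (fun _ _ => Nat.zero_le _) (mem_univ i)
  have h1 := Fintype.sum_pow_mul_eq_add_pow (Fin (s i)) (X : ℝ[X]) (1 - X)
  simp only [Fintype.card_fin, add_sub_cancel, one_pow] at h1
  have h2 : ∑ T : Finset (Fin (s i)), (X : ℝ[X]) ^ T.card * (1 - X) ^ (∑ i, s i - T.card) =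
      (1 - X) ^ (∑ i, s i - s i) *
        ∑ T : Finset (Fin (s i)), (X : ℝ[X]) ^ T.card * (1 - X) ^ (s i - T.card) := by
    rw [Finset.mul_sum]
    refine Finset.sum_congr rfl fun T _ => ?_
    have hT : T.card ≤ s i := by simpa using T.card_le_univ
    have : ∑ i, s i - T.card = (∑ i, s i - s i) + (s i - T.card) := by omega
    rw [this, pow_add]
    ring
  rw [h2, h1]
  simp

/-- the coefficients of `(y + d) ^ (d - 1)` -/
def g (d j : ℕ) : ℕ := if j < d then (d - 1).choose j * d ^ (d - 1 - j) else 0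

theorem g_anti (d j : ℕ) (hd : 1 ≤ d) : g d (j + 1) ≤ g d j := by
  unfold g
  by_cases h1 : j + 1 < d
  · have h2 : j < d := by omega
    rw [if_pos h1, if_pos h2]
    have h3 : d - 1 - j = (d - 1 - (j + 1)) + 1 := by omega
    rw [h3, pow_succ, mul_comm (d ^ _) d, ← mul_assoc]
    refine Nat.mul_le_mul_right _ ?_
    have h4 := Nat.choose_succ_right_eq (d - 1) j
    calc (d - 1).choose (j + 1) ≤ (d - 1).choose (j + 1) * (j + 1) :=
          Nat.le_mul_of_pos_right _ (Nat.succ_pos j)
      _ = (d - 1).choose j * (d - 1 - j) := h4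
      _ ≤ (d - 1).choose j * d := Nat.mul_le_mul_left _ (by omega)
  · rw [if_neg h1]
    exact Nat.zero_le _

/-- number of components of order `j + 1` -/
def N (d j : ℕ) : ℕ := g d j - g d (j + 1)

theorem key {R : Type} [CommRing R] (d : ℕ) (hd : 1 ≤ d) (y : R) :
    ∑ j ∈ range d, (N d j : R) * (y ^ (j + 1) - 1) = (y - 1) * (y + d) ^ (d - 1) := by
  have hN : ∀ j, (N d j : R) = (g d j : R) - (g d (j + 1) : R) := by
    intro j
    unfold N
    rw [Nat.cast_sub (g_anti d j hd)]
  have hg : (y + (d : R)) ^ (d - 1) = ∑ j ∈ range d, (g d j : R) * y ^ j := by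
    rw [add_pow]
    have : d - 1 + 1 = d := by omega
    rw [this]
    refine Finset.sum_congr rfl fun j hj => ?_
    rw [mem_range] at hj
    unfold g
    rw [if_pos hj]
    push_cast
    ring
  have hd0 : g d d = 0 := by unfold g; simp
  rw [hg]
  have h1 : ∑ j ∈ range d, (N d j : R) * (y ^ (j + 1) - 1) =
      ∑ j ∈ range d, ((g d j : R) * y ^ (j + 1) - (g d (j + 1) : R) * y ^ (j + 1)) -
        ∑ j ∈ range d, ((g d j : R) - (g d (j + 1) : R)) := by
    rw [← Finset.sum_sub_distrib]
    refine Finset.sum_congr rfl fun j _ => ?_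
    rw [hN]
    ring
  have h2 : ∑ j ∈ range d, ((g d j : R) - (g d (j + 1) : R)) = (g d 0 : R) := by
    rw [Finset.sum_range_sub' (fun j => (g d j : R)), hd0]
    simp
  have h3 : ∑ j ∈ range d, (g d (j + 1) : R) * y ^ (j + 1) =
      ∑ j ∈ range d, (g d j : R) * y ^ j - (g d 0 : R) := by
    have h4 := Finset.sum_range_succ (fun j => (g d j : R) * y ^ j) d
    have h5 := Finset.sum_range_succ' (fun j => (g d j : R) * y ^ j) d
    rw [h4] at h5
    simp only [hd0, Nat.cast_zero, zero_mul, add_zero, pow_zero, mul_one] at h5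
    rw [h5]
    ring
  rw [h1, h2, Finset.sum_sub_distrib, h3, sub_mul, Finset.mul_sum]
  have h6 : ∀ j ∈ range d, (g d j : R) * y ^ (j + 1) = y * ((g d j : R) * y ^ j) := by
    intro j _
    ring
  rw [Finset.sum_congr rfl h6]
  ring

/-- the components: `N d j` of them have order `j + 1` -/
abbrev Idx (d : ℕ) : Type := Σ j : Fin d, Fin (N d j)

/-- the order of a component -/
abbrev sz (d : ℕ) : Idx d → ℕ := fun i => i.1.val + 1

theorem sum_idx {R : Type} [CommRing R] (d : ℕ) (φ : ℕ → R) :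
    ∑ i : Idx d, φ (sz d i) = ∑ j ∈ range d, (N d j : R) * φ (j + 1) := by
  rw [Fintype.sum_sigma]
  rw [Finset.sum_range]
  refine Finset.sum_congr rfl fun j _ => ?_
  show ∑ _y : Fin (N d j), φ (j.val + 1) = _
  rw [Finset.sum_const, Finset.card_univ, Fintype.card_fin, nsmul_eq_mul]

/-- **Theorem.** For every `d ≥ 2` there is a disconnected graph `G` for which `C(G; x)` has
degree `d` and `C(G; x)` and `NRel(G; p)` have only real roots. -/
theorem result (d : ℕ) (hd : 2 ≤ d) :
    ∃ (V : Type) (_ : Fintype V) (G : SimpleGraph V), Nonempty V ∧ ¬ G.Connected ∧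
      (connectedSetPolynomial G).natDegree = d ∧
      AllRootsReal (connectedSetPolynomial G) ∧ AllRootsReal (nodeReliability G) := by
  classical
  have hN0 : 0 < N d 0 := by
    unfold N g
    rw [if_pos (by omega), if_pos (by omega)]
    obtain ⟨e, rfl⟩ : ∃ e, d = e + 2 := ⟨d - 2, by omega⟩
    have h1 : e + 2 - 1 = e + 1 := rfl
    have h2 : e + 1 - (0 + 1) = e := rfl
    rw [h1, h2]
    simp only [Nat.choose_zero_right, zero_add, Nat.choose_one_right, one_mul, Nat.sub_zero]
    rw [pow_succ, mul_comm, ← Nat.sub_mul]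
    exact Nat.mul_pos (by omega) (by positivity)
  have hNd : 0 < N d (d - 1) := by
    unfold N g
    rw [if_pos (by omega), if_neg (by omega)]
    simp
  let a : Σ i : Idx d, Fin (sz d i) := ⟨⟨⟨0, by omega⟩, ⟨0, hN0⟩⟩, ⟨0, by simp [sz]⟩⟩
  let b : Σ i : Idx d, Fin (sz d i) := ⟨⟨⟨d - 1, by omega⟩, ⟨0, hNd⟩⟩, ⟨0, by simp [sz]⟩⟩
  have hC : connectedSetPolynomial (cliques (sz d)) = X * (X + C ((d : ℝ) + 1)) ^ (d - 1) := by
    rw [connPoly_eq, sum_idx d (fun k => (1 + X : ℝ[X]) ^ k - 1), key d (by omega)]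
    have : (1 + X + (d : ℝ[X])) = X + C ((d : ℝ) + 1) := by
      simp only [map_add, map_natCast, map_one]
      ring
    rw [this]
    ring
  refine ⟨Σ i : Idx d, Fin (sz d i), inferInstance, cliques (sz d), ⟨a⟩, ?_, ?_, ?_, ?_⟩
  · intro hc
    have h1 : ((cliques (sz d)).induce Set.univ).Reachable ⟨a, trivial⟩ ⟨b, trivial⟩ := by
      have h2 := hc.preconnected a b
      obtain ⟨w⟩ := h2
      exact (w.map (SimpleGraph.induceUnivIso (cliques (sz d))).symm.toHom).reachable
    have h2 := fst_eq_of_reachable (sz d) Set.univ ⟨a, trivial⟩ ⟨b, trivial⟩ h1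
    have h3 : (0 : ℕ) = d - 1 := congrArg (fun i : Idx d => i.1.val) h2
    omega
  · rw [hC, natDegree_mul X_ne_zero (pow_ne_zero _ (X_add_C_ne_zero _)), natDegree_X,
      natDegree_pow, natDegree_X_add_C]
    omega
  · intro z hz
    rw [hC] at hz
    simp only [map_mul, map_pow, map_add, aeval_X, aeval_C] at hz
    rcases mul_eq_zero.1 hz with h | h
    · rw [h]; rfl
    · have h2 := (pow_eq_zero_iff (show d - 1 ≠ 0 by omega)).1 h
      have h3 : z = -(((d : ℝ) + 1 : ℝ) : ℂ) := by
        have : (algebraMap ℝ ℂ) ((d : ℝ) + 1) = (((d : ℝ) + 1 : ℝ) : ℂ) := rfl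
        rw [← this, map_add]
        linear_combination h2
      rw [h3, Complex.neg_im, Complex.ofReal_im, neg_zero]
  · intro z hz
    rw [nodeRel_eq] at hz
    simp only [map_sum, map_sub, map_pow, map_one, aeval_X] at hz
    by_cases hz1 : z = 1
    · rw [hz1]; rfl
    · have hq : (1 - z) ≠ 0 := sub_ne_zero.2 (Ne.symm hz1)
      set n := ∑ i : Idx d, sz d i with hn
      have h1 : ∀ i : Idx d, (1 - z) ^ (n - sz d i) - (1 - z) ^ n =
          (1 - z) ^ n * (((1 - z)⁻¹) ^ (sz d i) - 1) := by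
        intro i
        have hle : sz d i ≤ n :=
          Finset.single_le_sum (f := sz d) (fun _ _ => Nat.zero_le _) (mem_univ i)
        rw [pow_sub₀ _ hq hle, inv_pow]
        ring
      rw [Finset.sum_congr rfl fun i _ => h1 i, ← Finset.mul_sum,
        sum_idx d (fun k => ((1 - z)⁻¹) ^ k - 1), key d (by omega)] at hz
      rcases mul_eq_zero.1 hz with h | h
      · exact absurd h (pow_ne_zero _ hq)
      · rcases mul_eq_zero.1 h with h | h
        · have h2 : (1 - z)⁻¹ = 1 := by linear_combination h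
          have h3 : 1 - z = 1 := by rw [← inv_inv (1 - z), h2, inv_one]
          have : z = 0 := by linear_combination -h3
          rw [this]; rfl
        · have h2 := (pow_eq_zero_iff (show d - 1 ≠ 0 by omega)).1 h
          have h3 : (1 - z)⁻¹ = -(d : ℂ) := by linear_combination h2
          have h4 : 1 - z = (-(d : ℂ))⁻¹ := by rw [← h3, inv_inv]
          have h5 : z = ((1 + ((d : ℝ))⁻¹ : ℝ) : ℂ) := by
            push_cast
            have h6 : (-(d : ℂ))⁻¹ = -((d : ℂ)⁻¹) := by rw [inv_neg]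
            rw [h6] at h4
            linear_combination -h4
          rw [h5, Complex.ofReal_im]

end Pool.Agent.Results.MP_51a8c5_co.RealRootedAllDegrees
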